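import Pool.Agent.Helper89.KN.Spec
import Pool.Agent.Helper89.KN.Base

/-! Parts CIN and CLE: crude in-isolated sets (interior and left side). -/

open MeasureTheory Set Filter Topology
open scoped ENNReal

noncomputable section

namespace KN

namespace CIN

theorem vol_ball (a : ℂ) {r : ℝ} (hr : 0 ≤ r) :
    volume (Metric.ball a r) = ENNReal.ofReal (Real.pi * r ^ 2) := by
  rw [Complex.volume_ball, mul_comm, ENNReal.ofReal_mul Real.pi_pos.le, ENNReal.ofReal_pow hr,
    ← NNReal.coe_real_pi, ENNReal.ofReal_coe_nnreal]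

theorem vol_annulus (a : ℂ) {r R : ℝ} (hr : 0 ≤ r) (hR : r ≤ R) :
    volume (Metric.ball a R \ Metric.ball a r) ≤ ENNReal.ofReal (Real.pi * (R ^ 2 - r ^ 2)) := by
  rw [measure_sdiff (Metric.ball_subset_ball hR) measurableSet_ball.nullMeasurableSet
    measure_ball_lt_top.ne, vol_ball a hr, vol_ball a (hr.trans hR), ← ENNReal.ofReal_sub _
    (by positivity)]
  apply ENNReal.ofReal_le_ofReal
  apply le_of_eq
  ring

theorem area_V (h : S_LUNE) {j : ℕ} {ε : ℝ} {x z : ℂ} (hε : 0 < ε) (hj : 10000 ≤ j)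
    (h1 : (j - 3) * ε ≤ dist x z) (h2 : dist x z ≤ (j + 4) * ε) :
    volume (Metric.ball x ((j + 3) * ε) \ Metric.ball z ((j - 3) * ε)) ≤
      ENNReal.ofReal (lune * (j * ε) ^ 2 + Real.pi * (20 * j + 40) * ε ^ 2) := by
  have hj' : (10000 : ℝ) ≤ j := by exact_mod_cast hj
  have hl : 1.87 ≤ lune := h.1
  have hpos : 0 < dist x z := lt_of_lt_of_le (by nlinarith) h1
  have hn : ‖x - z‖ = dist x z := (dist_eq_norm x z).symm
  set x' : ℂ := z + ((j * ε / dist x z : ℝ) : ℂ) * (x - z) with hx'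
  have hx'z : dist x' z = j * ε := by
    rw [dist_eq_norm, hx', add_sub_cancel_left, norm_mul, Complex.norm_real, hn, Real.norm_eq_abs,
      abs_of_nonneg (by positivity)]
    field_simp
  have hxx' : dist x x' ≤ 4 * ε := by
    have e : x - x' = ((1 - j * ε / dist x z : ℝ) : ℂ) * (x - z) := by
      rw [hx']; push_cast; ring
    rw [dist_eq_norm, e, norm_mul, Complex.norm_real, hn, Real.norm_eq_abs]
    have e2 : |1 - j * ε / dist x z| * dist x z = |dist x z - j * ε| := by
      rw [← abs_of_pos hpos, ← abs_mul, abs_of_pos hpos]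
      congr 1
      field_simp
    rw [e2, abs_le]
    constructor <;> nlinarith
  have hsub : Metric.ball x ((j + 3) * ε) \ Metric.ball z ((j - 3) * ε) ⊆
      (Metric.ball x' (j * ε) \ Metric.ball z (j * ε)) ∪
      ((Metric.ball x' ((j + 7) * ε) \ Metric.ball x' (j * ε)) ∪
        (Metric.ball z (j * ε) \ Metric.ball z ((j - 3) * ε))) := by
    rintro w ⟨hw1, hw2⟩
    rw [Metric.mem_ball] at hw1
    have hw3 : dist w x' < (j + 7) * ε := by
      have := dist_triangle w x x'
      nlinarith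
    by_cases ha : w ∈ Metric.ball z (j * ε)
    · exact Or.inr (Or.inr ⟨ha, hw2⟩)
    · by_cases hb : w ∈ Metric.ball x' (j * ε)
      · exact Or.inl ⟨hb, ha⟩
      · exact Or.inr (Or.inl ⟨hw3, hb⟩)
  refine (measure_mono hsub).trans ((measure_union_le _ _).trans ?_)
  have e1 : volume (Metric.ball x' (j * ε) \ Metric.ball z (j * ε)) =
      ENNReal.ofReal (lune * (j * ε) ^ 2) := h.2.2 x' z (j * ε) (by positivity) hx'z
  rw [e1]
  have e2 := vol_annulus x' (r := j * ε) (R := (j + 7) * ε) (by positivity) (by nlinarith)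
  have e3 := vol_annulus z (r := (j - 3) * ε) (R := j * ε) (by nlinarith) (by nlinarith)
  refine (add_le_add_right ((measure_union_le _ _).trans (add_le_add e2 e3)) _).trans ?_
  have hp := Real.pi_pos
  rw [← ENNReal.ofReal_add, ← ENNReal.ofReal_add]
  · apply ENNReal.ofReal_le_ofReal
    apply le_of_eq
    ring
  · have : (0 : ℝ) ≤ lune := by linarith
    positivity
  · have a1 : 0 ≤ ((j + 7) * ε) ^ 2 - (j * ε) ^ 2 := by nlinarith [sq_nonneg ε, mul_pos hε hε]
    have a2 : 0 ≤ (j * ε) ^ 2 - ((j - 3) * ε) ^ 2 := by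
      have : (j * ε) ^ 2 - ((j - 3) * ε) ^ 2 = (6 * j - 9) * ε ^ 2 := by ring
      rw [this]
      have : (0 : ℝ) ≤ 6 * j - 9 := by linarith
      positivity
    positivity
  · have a1 : 0 ≤ ((j + 7) * ε) ^ 2 - (j * ε) ^ 2 := by nlinarith [sq_nonneg ε, mul_pos hε hε]
    positivity
  · have a2 : 0 ≤ (j * ε) ^ 2 - ((j - 3) * ε) ^ 2 := by
      have : (j * ε) ^ 2 - ((j - 3) * ε) ^ 2 = (6 * j - 9) * ε ^ 2 := by ring
      rw [this]
      have : (0 : ℝ) ≤ 6 * j - 9 := by linarith
      positivity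
    positivity

theorem isCompact_Cell (h : ℝ) (c : ℤ × ℤ) : IsCompact (Cell h c) := by
  have : Cell h c = (Icc (c.1 * h : ℝ) ((c.1 + 1) * h)) ×ℂ (Icc (c.2 * h : ℝ) ((c.2 + 1) * h)) := by
    ext z
    simp only [Cell, Complex.mem_reProdIm, mem_Icc]
    constructor
    · rintro ⟨h1, h2, h3, h4⟩
      exact ⟨⟨h1, h2⟩, h3, h4⟩
    · rintro ⟨⟨h1, h2⟩, h3, h4⟩
      exact ⟨h1, h2, h3, h4⟩
  rw [this]
  exact isCompact_Icc.reProdIm isCompact_Icc

theorem isCompact_cellU (h : ℝ) (F : Finset (ℤ × ℤ)) : IsCompact (cellU h F) :=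
  F.isCompact_biUnion fun c _ => isCompact_Cell h c

theorem meas_collar (R : Set ℂ) (hR : MeasurableSet R) (s : ℝ) : MeasurableSet (collar R s) :=
  hR.compl.inter (measurableSet_lt (Metric.continuous_infDist_pt R).measurable measurable_const)

theorem isCompact_SqL (l : ℝ) : IsCompact (SqL l) := by
  have : SqL l = (Icc (0 : ℝ) l) ×ℂ (Icc (0 : ℝ) l) := by
    ext z
    simp only [SqL, Complex.mem_reProdIm, mem_Icc]
    constructor
    · rintro ⟨h1, h2, h3, h4⟩
      exact ⟨⟨h1, h2⟩, h3, h4⟩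
    · rintro ⟨⟨h1, h2⟩, h3, h4⟩
      exact ⟨h1, h2, h3, h4⟩
  rw [this]
  exact isCompact_Icc.reProdIm isCompact_Icc

theorem meas_HP : MeasurableSet HP := measurableSet_le measurable_const Complex.measurable_re

/-- the common probabilistic estimate -/
theorem main (hB : S_BASIC) (hC : S_CHER) (n a₁ a₂ b : ℝ) (k : ℕ) (U V : Set ℂ)
    (hU : MeasurableSet U) (hV : MeasurableSet V) (hUS : U ⊆ Sq n) (hd : Disjoint U V)
    (h1 : 0 ≤ a₁) (h2 : 0 < a₂) (hUa : ENNReal.ofReal a₁ ≤ volume U)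
    (hVa : volume V ≤ ENNReal.ofReal a₂) (hb : a₂ / (a₁ + a₂) ≤ b) :
    PP (Sq n) (fun ω => cnt U ω = 0 ∧ k ≤ cnt V ω) ≤ ENNReal.ofReal (b ^ k) := by
  have hS : IsCompact (Sq n) := isCompact_SqL _
  have hmono : PP (Sq n) (fun ω => cnt U ω = 0 ∧ k ≤ cnt V ω) ≤
      PP (Sq n) (fun ω => cnt U ω = 0 ∧ k ≤ cnt (V ∩ Sq n) ω) := by
    unfold PP
    refine hB.1 _ _ _ hS.measurableSet ?_
    rintro m x hx ⟨hu, hv⟩
    refine ⟨hu, hv.trans (cnt_mono' ?_)⟩
    intro z hz hzV
    obtain ⟨i, rfl⟩ := mem_conf.1 hz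
    exact ⟨hzV, hx i⟩
  refine hmono.trans ?_
  have := hC (Sq n) U (V ∩ Sq n) a₁ a₂ k hS.measurableSet hU (hV.inter hS.measurableSet) hUS
    inter_subset_right (hd.mono_right inter_subset_left) hS.measure_lt_top.ne h1 h2 hUa
    ((measure_mono inter_subset_left).trans hVa)
  refine this.trans (ENNReal.ofReal_le_ofReal ?_)
  exact pow_le_pow_left₀ (by positivity) hb k

theorem num1 {j : ℕ} {ε l : ℝ} (hε : 0 < ε) (hj : 10000 ≤ j) (hl : 1.87 ≤ l) (c d : ℝ)
    (hd : 0 < d) (hcd : 1.0052 * d ≤ c) :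
    (l * (j * ε) ^ 2 + Real.pi * (20 * j + 40) * ε ^ 2) /
      (c * Real.pi * (j * ε) ^ 2 + (l * (j * ε) ^ 2 + Real.pi * (20 * j + 40) * ε ^ 2)) ≤
      1 / (1 + d * Real.pi / l) := by
  have hj' : (10000 : ℝ) ≤ j := by exact_mod_cast hj
  have hp := Real.pi_pos
  have hp2 := Real.pi_lt_d2
  have hlpos : 0 < l := by linarith
  have hc : 0 < c := by linarith
  rw [div_le_div_iff₀ (by positivity) (by positivity)]
  have key : d * (l * j ^ 2 + Real.pi * (20 * j + 40)) ≤ c * l * j ^ 2 := by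
    have h2 : Real.pi * (20 * j + 40) ≤ 3.15 * (20 * j + 40) :=
      mul_le_mul_of_nonneg_right hp2.le (by positivity)
    have h3 : 3.15 * (20 * (j : ℝ) + 40) ≤ 0.0052 * 1.87 * (j : ℝ) ^ 2 := by
      nlinarith
    have h4 : 0.0052 * 1.87 * (j : ℝ) ^ 2 ≤ 0.0052 * l * (j : ℝ) ^ 2 := by
      have : 0.0052 * 1.87 ≤ 0.0052 * l := by linarith
      exact mul_le_mul_of_nonneg_right this (by positivity)
    have h5 : d * (l * j ^ 2 + Real.pi * (20 * j + 40)) ≤ d * (1.0052 * l * (j : ℝ) ^ 2) := by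
      apply mul_le_mul_of_nonneg_left _ hd.le
      linarith
    have h6 : d * (1.0052 * l * (j : ℝ) ^ 2) ≤ c * l * j ^ 2 := by
      have : (1.0052 * d) * (l * (j : ℝ) ^ 2) ≤ c * (l * (j : ℝ) ^ 2) :=
        mul_le_mul_of_nonneg_right hcd (by positivity)
      linarith
    linarith
  have e : (l * (j * ε) ^ 2 + Real.pi * (20 * j + 40) * ε ^ 2) * (1 + d * Real.pi / l) =
      (l * (j * ε) ^ 2 + Real.pi * (20 * j + 40) * ε ^ 2) +
      (Real.pi * ε ^ 2 / l) * (d * (l * j ^ 2 + Real.pi * (20 * j + 40))) := by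
    field_simp
  have e2 : c * Real.pi * (j * ε) ^ 2 = (Real.pi * ε ^ 2 / l) * (c * l * j ^ 2) := by
    field_simp
  rw [e, e2, one_mul]
  have := mul_le_mul_of_nonneg_left key (show 0 ≤ Real.pi * ε ^ 2 / l by positivity)
  linarith

/-! reflection -/

theorem refl_eq (z : ℂ) : refl z = (Complex.conjLIE.trans (LinearIsometryEquiv.neg ℝ)) z := by
  apply Complex.ext <;> simp [refl]

theorem refl_refl (z : ℂ) : refl (refl z) = z := by
  apply Complex.ext <;> simp [refl]

theorem dist_refl (z w : ℂ) : dist (refl z) (refl w) = dist z w := by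
  rw [refl_eq, refl_eq]
  exact LinearIsometryEquiv.dist_map _ _ _

theorem mp_refl : MeasurePreserving refl volume volume := by
  have : refl = (Complex.conjLIE.trans (LinearIsometryEquiv.neg ℝ)) := funext refl_eq
  rw [this]
  exact LinearIsometryEquiv.measurePreserving _

theorem dist_le_refl {z y : ℂ} (hz : 0 ≤ z.re) (hy : 0 ≤ y.re) : dist z y ≤ dist z (refl y) := by
  rw [Complex.dist_eq_re_im, Complex.dist_eq_re_im]
  apply Real.sqrt_le_sqrt
  have : (refl y).re = -y.re := rfl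
  have h2 : (refl y).im = y.im := rfl
  rw [this, h2]
  nlinarith [mul_nonneg hz hy]

end CIN

open CIN in
theorem cin_thm (hSL : S_SL) (hL : S_LUNE) (hC : S_CHER) (hB : S_BASIC) : S_CIN := by
  intro k n ε j F x z p q hn hε hj hp hq hpq h1 h2 hsub
  have hj' : (10000 : ℝ) ≤ j := by exact_mod_cast hj
  have hR := isCompact_cellU ε F
  have hU := meas_collar _ hR.measurableSet (0.99 * j * ε)
  have hlp : (0 : ℝ) < lune := by have := hL.1; linarith
  have hpi := Real.pi_pos
  refine main hB hC n (1.9602 * Real.pi * (j * ε) ^ 2)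
    (lune * (j * ε) ^ 2 + Real.pi * (20 * j + 40) * ε ^ 2) _ k _ _ hU
    ((measurableSet_ball.diff measurableSet_ball).diff hU) hsub disjoint_sdiff_self_right
    (by positivity) (by positivity) ?_ ((measure_mono sdiff_subset).trans (area_V hL hε hj h1 h2))
    ?_
  · have := hSL (cellU ε F) p q (0.99 * j * ε) hR hp hq (by positivity) (by nlinarith)
    refine le_trans (le_of_eq ?_) this
    congr 1
    ring
  · exact num1 hε hj hL.1 1.9602 1.95 (by norm_num) (by norm_num)

open CIN in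
theorem cle_thm (hSL : S_SL) (hL : S_LUNE) (hC : S_CHER) (hB : S_BASIC) : S_CLE := by
  intro k n ε j F x z p q hn hε hj hF hp hq hpq h1 h2 hsub
  have hj' : (10000 : ℝ) ≤ j := by exact_mod_cast hj
  have hR := isCompact_cellU ε F
  have hlp : (0 : ℝ) < lune := by have := hL.1; linarith
  have hpi := Real.pi_pos
  set δ : ℝ := 0.99 * j * ε with hδ
  have hδpos : 0 < δ := by positivity
  have hU : MeasurableSet (collar (cellU ε F) δ) := meas_collar _ hR.measurableSet δ
  have hcont : Continuous refl := by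
    have : refl = (Complex.conjLIE.trans (LinearIsometryEquiv.neg ℝ)) := funext refl_eq
    rw [this]
    exact LinearIsometryEquiv.continuous _
  have hR' : IsCompact (cellU ε F ∪ refl '' cellU ε F) := hR.union (hR.image hcont)
  -- the cells lie in the half plane
  have hHP : ∀ y ∈ cellU ε F, 0 ≤ y.re := by
    intro y hy
    simp only [cellU, mem_iUnion] at hy
    obtain ⟨c, hc, hy⟩ := hy
    have h3 : (0 : ℝ) ≤ c.1 := by exact_mod_cast hF c hc
    exact le_trans (by positivity) hy.1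
  -- the collar of the doubled set
  set V' : Set ℂ := collar (cellU ε F ∪ refl '' cellU ε F) δ with hV'
  have hVm : MeasurableSet V' := meas_collar _ hR'.measurableSet δ
  have hin : V' ∩ HP ⊆ collar (cellU ε F) δ ∩ HP := by
    rintro w ⟨⟨hw1, hw2⟩, hw3⟩
    refine ⟨⟨fun h => hw1 (Or.inl h), ?_⟩, hw3⟩
    have hne : (cellU ε F ∪ refl '' cellU ε F).Nonempty := ⟨p, hp⟩
    obtain ⟨y, hy, hwy⟩ := (Metric.infDist_lt_iff hne).1 hw2
    rcases hy with hy | ⟨y', hy', rfl⟩
    · exact (Metric.infDist_le_dist_of_mem hy).trans_lt hwy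
    · exact (Metric.infDist_le_dist_of_mem hy').trans_lt
        ((dist_le_refl hw3 (hHP y' hy')).trans_lt hwy)
  have hinv : V' ∩ HPᶜ ⊆ refl ⁻¹' (V' ∩ HP) := by
    rintro w ⟨⟨hw1, hw2⟩, hw3⟩
    have hne : (cellU ε F ∪ refl '' cellU ε F).Nonempty := ⟨p, hp⟩
    have hstab : ∀ y, y ∈ cellU ε F ∪ refl '' cellU ε F →
        refl y ∈ cellU ε F ∪ refl '' cellU ε F := by
      rintro y (hy | ⟨y', hy', rfl⟩)
      · exact Or.inr ⟨y, hy, rfl⟩
      · rw [refl_refl]
        exact Or.inl hy'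
    refine ⟨⟨fun h => hw1 ?_, ?_⟩, ?_⟩
    · have := hstab _ h
      rwa [refl_refl] at this
    · obtain ⟨y, hy, hwy⟩ := (Metric.infDist_lt_iff hne).1 hw2
      refine (Metric.infDist_le_dist_of_mem (hstab y hy)).trans_lt ?_
      rw [dist_refl]
      exact hwy
    · have : ¬ (0 ≤ w.re) := hw3
      show 0 ≤ -w.re
      linarith
  have hvol : ENNReal.ofReal (0.9801 * Real.pi * (j * ε) ^ 2) ≤
      volume (collar (cellU ε F) δ ∩ HP) := by
    have h3 := hSL _ p q δ hR' hp hq hδpos (by rw [hδ]; nlinarith)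
    have h4 : volume V' ≤ 2 * volume (collar (cellU ε F) δ ∩ HP) := by
      rw [← measure_inter_add_sdiff V' meas_HP, two_mul]
      refine add_le_add (measure_mono hin) ?_
      rw [sdiff_eq]
      refine (measure_mono hinv).trans ?_
      rw [mp_refl.measure_preimage (hVm.inter meas_HP).nullMeasurableSet]
      exact measure_mono hin
    have h5 := h3.trans h4
    have h6 : ENNReal.ofReal (2 * Real.pi * δ ^ 2) =
        2 * ENNReal.ofReal (0.9801 * Real.pi * (j * ε) ^ 2) := by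
      rw [show (2 : ℝ≥0∞) = ENNReal.ofReal 2 by simp, ← ENNReal.ofReal_mul (by norm_num)]
      congr 1
      rw [hδ]
      ring
    rw [h6] at h5
    exact (ENNReal.mul_le_mul_iff_right (by norm_num) (by norm_num)).1 h5
  refine main hB hC n (0.9801 * Real.pi * (j * ε) ^ 2)
    (lune * (j * ε) ^ 2 + Real.pi * (20 * j + 40) * ε ^ 2) _ k _ _ (hU.inter meas_HP)
    ((measurableSet_ball.diff measurableSet_ball).diff hU) hsub
    (disjoint_sdiff_self_right.mono_left inter_subset_left)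
    (by positivity) (by positivity) hvol
    ((measure_mono sdiff_subset).trans (area_V hL hε hj h1 h2)) ?_
  exact num1 hε hj hL.1 0.9801 0.975 (by norm_num) (by norm_num)

end KN
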