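import Pool.Agent.Helper89.KN.Spec

/-! Part LUNE: the lune constant. -/

open MeasureTheory Set Filter Topology
open scoped ENNReal

noncomputable section

namespace KN

namespace LUNE

/-- the cap `{1/2 ≤ re z, |z| < 1}` -/
def cap : Set ℂ := {z | 1 / 2 ≤ z.re ∧ ‖z‖ < 1}

theorem meas_cap : MeasurableSet cap :=
  (measurableSet_le measurable_const Complex.measurable_re).inter
    (measurableSet_lt measurable_norm measurable_const)

theorem sqrt_le (c t : ℝ) (hc : 0 < c) (ht : 0 ≤ t) : 2 * Real.sqrt t ≤ (t + c ^ 2) / c := by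
  rw [le_div_iff₀ hc]
  nlinarith [sq_nonneg (Real.sqrt t - c), Real.sq_sqrt ht]

theorem int_piece (a b c : ℝ) (hab : a ≤ b) (hc : 0 < c) (hb : b ≤ 1) (ha : 0 ≤ a) :
    ∫⁻ x in Icc a b, ENNReal.ofReal ((1 - x ^ 2 + c ^ 2) / c) =
      ENNReal.ofReal (((b - a) - (b ^ 3 - a ^ 3) / 3 + c ^ 2 * (b - a)) / c) := by
  have hcont : Continuous (fun x : ℝ => (1 - x ^ 2 + c ^ 2) / c) := by fun_prop
  rw [← ofReal_integral_eq_lintegral_ofReal]
  · congr 1
    rw [integral_Icc_eq_integral_Ioc, ← intervalIntegral.integral_of_le hab]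
    have e : (fun x : ℝ => (1 - x ^ 2 + c ^ 2) / c) =
        fun x : ℝ => ((1 + c ^ 2) - x ^ 2) * (1 / c) := by
      ext x; ring
    rw [e, intervalIntegral.integral_mul_const, intervalIntegral.integral_sub
      (by simp) ((continuous_pow 2).intervalIntegrable _ _), integral_pow]
    simp
    ring
  · exact (hcont.continuousOn.integrableOn_Icc)
  · refine (ae_restrict_iff' measurableSet_Icc).2 (Eventually.of_forall ?_)
    intro x hx
    have : x ^ 2 ≤ 1 := by nlinarith [hx.1, hx.2]
    show (0 : ℝ) ≤ (1 - x ^ 2 + c ^ 2) / c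
    have : 0 ≤ 1 - x ^ 2 + c ^ 2 := by nlinarith [sq_nonneg c]
    positivity

theorem vol_cap : volume cap ≤ ENNReal.ofReal 0.6356 := by
  have h1 : volume cap = volume (Complex.measurableEquivRealProd.symm ⁻¹' cap) :=
    (Complex.volume_preserving_equiv_real_prod.symm.measure_preimage
      meas_cap.nullMeasurableSet).symm
  rw [h1]
  have hm : MeasurableSet (Complex.measurableEquivRealProd.symm ⁻¹' cap) :=
    Complex.measurableEquivRealProd.symm.measurable meas_cap
  rw [Measure.volume_eq_prod, Measure.prod_apply hm]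
  have key : ∀ x : ℝ, volume (Prod.mk x ⁻¹' (Complex.measurableEquivRealProd.symm ⁻¹' cap)) ≤
      (Icc (1 / 2 : ℝ) (3 / 4)).indicator
        (fun x => ENNReal.ofReal ((1 - x ^ 2 + 0.78 ^ 2) / 0.78)) x +
      (Icc (3 / 4 : ℝ) 1).indicator
        (fun x => ENNReal.ofReal ((1 - x ^ 2 + 0.48 ^ 2) / 0.48)) x := by
    intro x
    have hsub : (Prod.mk x ⁻¹' (Complex.measurableEquivRealProd.symm ⁻¹' cap)) ⊆
        {y : ℝ | 1 / 2 ≤ x ∧ x ^ 2 + y ^ 2 < 1} := by
      intro y hy
      have hy' : 1 / 2 ≤ x ∧ ‖(⟨x, y⟩ : ℂ)‖ < 1 := hy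
      refine ⟨hy'.1, ?_⟩
      have h2 : ‖(⟨x, y⟩ : ℂ)‖ ^ 2 < 1 := by
        have := norm_nonneg (⟨x, y⟩ : ℂ)
        nlinarith [hy'.2]
      rw [Complex.sq_norm, Complex.normSq_mk] at h2
      nlinarith
    refine (measure_mono hsub).trans ?_
    by_cases hx : 1 / 2 ≤ x ∧ x < 1
    · have ht : 0 ≤ 1 - x ^ 2 := by nlinarith [hx.1, hx.2]
      have hs : {y : ℝ | 1 / 2 ≤ x ∧ x ^ 2 + y ^ 2 < 1} ⊆
          Ioo (-Real.sqrt (1 - x ^ 2)) (Real.sqrt (1 - x ^ 2)) := by
        intro y hy
        have h3 : y ^ 2 < 1 - x ^ 2 := by linarith [hy.2]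
        refine abs_lt.1 ?_
        rw [Real.lt_sqrt (abs_nonneg y), sq_abs]
        exact h3
      refine (measure_mono hs).trans ?_
      rw [Real.volume_Ioo, show Real.sqrt (1 - x ^ 2) - -Real.sqrt (1 - x ^ 2) =
        2 * Real.sqrt (1 - x ^ 2) by ring]
      by_cases hx2 : x ≤ 3 / 4
      · rw [indicator_of_mem (show x ∈ Icc (1 / 2 : ℝ) (3 / 4) from ⟨hx.1, hx2⟩)]
        refine le_trans (ENNReal.ofReal_le_ofReal (sqrt_le 0.78 _ (by norm_num) ht)) ?_
        exact le_self_add
      · rw [indicator_of_mem (show x ∈ Icc (3 / 4 : ℝ) 1 from ⟨by linarith, hx.2.le⟩)]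
        refine le_trans (ENNReal.ofReal_le_ofReal (sqrt_le 0.48 _ (by norm_num) ht)) ?_
        exact le_add_self
    · have : {y : ℝ | 1 / 2 ≤ x ∧ x ^ 2 + y ^ 2 < 1} = ∅ := by
        ext y
        simp only [mem_ofPred_eq, mem_empty_iff_false, iff_false, not_and]
        intro h
        have : ¬ x < 1 := fun h' => hx ⟨h, h'⟩
        nlinarith [sq_nonneg y]
      rw [this, measure_empty]
      exact zero_le
  refine (lintegral_mono key).trans ?_
  rw [lintegral_add_left (Measurable.indicator (by fun_prop) measurableSet_Icc),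
    lintegral_indicator measurableSet_Icc, lintegral_indicator measurableSet_Icc,
    int_piece _ _ _ (by norm_num) (by norm_num) (by norm_num) (by norm_num),
    int_piece _ _ _ (by norm_num) (by norm_num) (by norm_num) (by norm_num),
    ← ENNReal.ofReal_add (by norm_num) (by norm_num)]
  apply ENNReal.ofReal_le_ofReal
  norm_num

theorem vol_lens : volume (Metric.ball (1 : ℂ) 1 ∩ Metric.ball (0 : ℂ) 1) ≤
    ENNReal.ofReal 1.2712 := by
  have hsub : Metric.ball (1 : ℂ) 1 ∩ Metric.ball (0 : ℂ) 1 ⊆ cap ∪ (fun z => 1 - z) ⁻¹' cap := by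
    rintro z ⟨h1, h0⟩
    rw [Metric.mem_ball, dist_eq_norm] at h1 h0
    rw [sub_zero] at h0
    by_cases hz : 1 / 2 ≤ z.re
    · exact Or.inl ⟨hz, h0⟩
    · right
      refine ⟨?_, ?_⟩
      · simp only [Complex.sub_re, Complex.one_re]
        linarith
      · rw [norm_sub_rev]
        exact h1
  refine (measure_mono hsub).trans ((measure_union_le _ _).trans ?_)
  have h2 : volume ((fun z : ℂ => 1 - z) ⁻¹' cap) = volume cap :=
    (Measure.measurePreserving_sub_left volume (1 : ℂ)).measure_preimage meas_cap.nullMeasurableSet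
  rw [h2]
  refine (add_le_add vol_cap vol_cap).trans ?_
  rw [← ENNReal.ofReal_add (by norm_num) (by norm_num)]
  apply ENNReal.ofReal_le_ofReal
  norm_num

end LUNE

open LUNE in
theorem lune_thm : S_LUNE := by
  have hball : ∀ a : ℂ, volume (Metric.ball a 1) = ENNReal.ofReal Real.pi := by
    intro a
    rw [Complex.volume_ball]
    simp
    rw [← ENNReal.ofReal_coe_nnreal, NNReal.coe_real_pi]
  have hfin : volume (Metric.ball (1 : ℂ) 1 \ Metric.ball (0 : ℂ) 1) ≠ ⊤ :=
    ((measure_mono sdiff_subset).trans_lt measure_ball_lt_top).ne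
  refine ⟨?_, ?_, ?_⟩
  · -- lower bound
    have h1 : volume (Metric.ball (1 : ℂ) 1 ∩ Metric.ball (0 : ℂ) 1) +
        volume (Metric.ball (1 : ℂ) 1 \ Metric.ball (0 : ℂ) 1) = ENNReal.ofReal Real.pi := by
      rw [measure_inter_add_sdiff _ measurableSet_ball, hball]
    have h2 : ENNReal.ofReal Real.pi ≤ ENNReal.ofReal (1.2712 + lune) := by
      have h4 : (0 : ℝ) ≤ lune := ENNReal.toReal_nonneg
      rw [← h1, ENNReal.ofReal_add (by norm_num) h4]
      refine add_le_add vol_lens ?_
      rw [lune, ENNReal.ofReal_toReal hfin]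
    have h3 : Real.pi ≤ 1.2712 + lune :=
      (ENNReal.ofReal_le_ofReal_iff (by
        have : 0 ≤ lune := ENNReal.toReal_nonneg
        linarith)).1 h2
    have := Real.pi_gt_d6
    linarith
  · unfold lune
    refine ENNReal.toReal_le_of_le_ofReal Real.pi_pos.le ?_
    rw [← hball 1]
    exact measure_mono sdiff_subset
  · intro x z δ hδ hxz
    rcases hδ.eq_or_lt with h0 | hpos
    · subst h0
      simp
    set c : ℂ := x - z with hc
    have hcn : ‖c‖ = δ := by rw [hc, ← dist_eq_norm, hxz]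
    have hc0 : c ≠ 0 := by
      intro h
      rw [h, norm_zero] at hcn
      linarith
    have e1 : volume (Metric.ball x δ \ Metric.ball z δ) =
        volume (Metric.ball c δ \ Metric.ball 0 δ) := by
      rw [← measure_preimage_add volume z (Metric.ball x δ \ Metric.ball z δ)]
      congr 1
      ext w
      simp only [mem_preimage, Set.mem_sdiff, Metric.mem_ball, dist_eq_norm, hc]
      rw [show z + w - x = w - (x - z) by ring, show z + w - z = w - 0 by ring]
    have e2 : Metric.ball c δ \ Metric.ball 0 δ =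
        (LinearMap.mul ℝ ℂ c) '' (Metric.ball (1 : ℂ) 1 \ Metric.ball (0 : ℂ) 1) := by
      ext w
      simp only [Set.mem_sdiff, Metric.mem_ball, dist_eq_norm, mem_image, LinearMap.mul_apply', sub_zero]
      constructor
      · rintro ⟨hw1, hw2⟩
        refine ⟨w / c, ⟨?_, ?_⟩, by field_simp⟩
        · have : w / c - 1 = (w - c) / c := by field_simp
          rw [this, norm_div, hcn, div_lt_one hpos]
          exact hw1
        · rw [norm_div, hcn, div_lt_one hpos]
          exact hw2
      · rintro ⟨v, ⟨hv1, hv2⟩, rfl⟩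
        refine ⟨?_, ?_⟩
        · have : c * v - c = c * (v - 1) := by ring
          rw [this, norm_mul, hcn]
          nlinarith
        · rw [norm_mul, hcn]
          intro h
          apply hv2
          nlinarith
    rw [e1, e2, Measure.addHaar_image_linearMap]
    have hdet : LinearMap.det (LinearMap.mul ℝ ℂ c) = δ ^ 2 := by
      have := congrFun (congrArg DFunLike.coe Algebra.norm_complex_eq) c
      rw [Algebra.norm_apply] at this
      have h3 : LinearMap.mul ℝ ℂ c = Algebra.lmul ℝ ℂ c := rfl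
      rw [h3]
      refine this.trans ?_
      show Complex.normSq c = δ ^ 2
      rw [← Complex.sq_norm, hcn]
    rw [hdet, abs_of_nonneg (by positivity), lune, mul_comm,
      ENNReal.ofReal_mul ENNReal.toReal_nonneg, ENNReal.ofReal_toReal hfin]

end KN
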