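import Pool.Agent.Helper89.KN.Spec

/-! Part NUM: the numerical inequalities. -/

open MeasureTheory Set Filter Topology
open scoped ENNReal

noncomputable section

namespace KN

namespace NUM

/-- `L = 3 log (4/3)` satisfies `exp L = 64/27`. -/
theorem exp_L : Real.exp (3 * Real.log (4 / 3)) = 64 / 27 := by
  rw [show (3 : ℝ) * Real.log (4 / 3) = Real.log ((4 / 3) ^ 3) by
    rw [Real.log_pow]; norm_num]
  rw [Real.exp_log (by norm_num)]
  norm_num

theorem L_pos : 0 < 3 * Real.log (4 / 3) := by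
  have : 0 < Real.log (4 / 3) := Real.log_pos (by norm_num)
  positivity

/-- `exp (1.68 L) < 4.27`. -/
theorem exp_168 : Real.exp (1.68 * (3 * Real.log (4 / 3))) < 4.27 := by
  have h1 : Real.exp (1.68 * (3 * Real.log (4 / 3))) ^ 25 = (64 / 27) ^ 42 := by
    rw [← exp_L, ← Real.exp_nat_mul, ← Real.exp_nat_mul]
    congr 1
    push_cast
    ring
  by_contra h
  push Not at h
  have h2 : (4.27 : ℝ) ^ 25 ≤ Real.exp (1.68 * (3 * Real.log (4 / 3))) ^ 25 :=
    pow_le_pow_left₀ (by norm_num) h 25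
  rw [h1] at h2
  norm_num at h2

theorem conv (s : ℝ) {q : ℝ} (h1 : 1 ≤ q) (h2 : q ≤ 1.68) :
    Real.exp (q * s) ≤ (1.68 - q) / 0.68 * Real.exp s + (q - 1) / 0.68 * Real.exp (1.68 * s) := by
  have ha : (0 : ℝ) ≤ (1.68 - q) / 0.68 := div_nonneg (by linarith) (by norm_num)
  have hb : (0 : ℝ) ≤ (q - 1) / 0.68 := div_nonneg (by linarith) (by norm_num)
  have hab : (1.68 - q) / 0.68 + (q - 1) / 0.68 = 1 := by
    rw [← add_div]; norm_num
  have h := convexOn_exp.2 (mem_univ s) (mem_univ (1.68 * s)) ha hb hab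
  simp only [smul_eq_mul] at h
  have e : (1.68 - q) / 0.68 * s + (q - 1) / 0.68 * (1.68 * s) = q * s := by
    field_simp
    ring
  rw [e] at h
  exact h

end NUM

open NUM in
theorem num_thm : S_NUM := by
  intro l hl1 hl2
  have hlpos : 0 < l := by linarith
  set q := Real.pi / l with hq
  have hq1 : 1 ≤ q := by
    rw [hq, le_div_iff₀ hlpos]
    linarith
  have hq2 : q ≤ 1.68 := by
    rw [hq, div_le_iff₀ hlpos]
    have := Real.pi_lt_d6
    nlinarith
  have e1 : 3 * q * Real.log (4 / 3) = q * (3 * Real.log (4 / 3)) := by ring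
  have e2 : 1.95 * Real.pi / l = 1.95 * q := by rw [hq]; ring
  have e3 : 0.975 * Real.pi / l = 0.975 * q := by rw [hq]; ring
  have hL := L_pos
  rw [e1, e2, e3]
  have hqL : q * (3 * Real.log (4 / 3)) ≤ 1.68 * (3 * Real.log (4 / 3)) :=
    mul_le_mul_of_nonneg_right hq2 hL.le
  have hE := exp_168
  refine ⟨by positivity, ?_, ?_, ?_, ?_⟩
  · rw [Real.lt_log_iff_exp_lt (by positivity)]
    have h := conv (3 * Real.log (4 / 3)) hq1 hq2
    rw [exp_L] at h
    have hb : 0 ≤ (q - 1) / 0.68 := div_nonneg (by linarith) (by norm_num)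
    have h3 : (q - 1) / 0.68 * Real.exp (1.68 * (3 * Real.log (4 / 3))) ≤
        (q - 1) / 0.68 * 4.27 := mul_le_mul_of_nonneg_left hE.le hb
    have h4 : (1.68 - q) / 0.68 * (64 / 27) + (q - 1) / 0.68 * 4.27 < 1 + 1.95 * q := by
      have : (1.68 - q) / 0.68 * (64 / 27) + (q - 1) / 0.68 * 4.27 =
          ((1.68 - q) * (64 / 27) + (q - 1) * 4.27) / 0.68 := by ring
      rw [this, div_lt_iff₀ (by norm_num)]
      nlinarith
    linarith
  · have hs : 0 < Real.exp (q * (3 * Real.log (4 / 3)) / 2) := Real.exp_pos _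
    have : q * (3 * Real.log (4 / 3)) / 2 < Real.log (1 + 0.975 * q) := by
      rw [Real.lt_log_iff_exp_lt (by positivity)]
      have h5 : Real.exp (q * (3 * Real.log (4 / 3)) / 2) ^ 2 ≤ 4.27 := by
        rw [← Real.exp_nat_mul]
        have : ((2 : ℕ) : ℝ) * (q * (3 * Real.log (4 / 3)) / 2) = q * (3 * Real.log (4 / 3)) := by
          push_cast; ring
        rw [this]
        exact (Real.exp_le_exp.2 hqL).trans hE.le
      have h6 : Real.exp (q * (3 * Real.log (4 / 3)) / 2) ^ 2 =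
          Real.exp (q * (3 * Real.log (4 / 3))) := by
        rw [← Real.exp_nat_mul]
        congr 1
        push_cast; ring
      have h := conv (3 * Real.log (4 / 3)) hq1 hq2
      rw [exp_L] at h
      have hb : 0 ≤ (q - 1) / 0.68 := div_nonneg (by linarith) (by norm_num)
      have h3 : (q - 1) / 0.68 * Real.exp (1.68 * (3 * Real.log (4 / 3))) ≤
          (q - 1) / 0.68 * 4.27 := mul_le_mul_of_nonneg_left hE.le hb
      have h4 : (1.68 - q) / 0.68 * (64 / 27) + (q - 1) / 0.68 * 4.27 =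
          ((1.68 - q) * (64 / 27) + (q - 1) * 4.27) / 0.68 := by ring
      have h7 : ((1.68 - q) * (64 / 27) + (q - 1) * 4.27) / 0.68 < (1 + 0.975 * q) ^ 2 := by
        rw [div_lt_iff₀ (by norm_num)]
        nlinarith
      have h8 : Real.exp (q * (3 * Real.log (4 / 3)) / 2) ^ 2 < (1 + 0.975 * q) ^ 2 := by
        rw [h6]; linarith
      exact lt_of_pow_lt_pow_left₀ 2 (by positivity) h8
    linarith
  · rw [Real.lt_log_iff_exp_lt (by norm_num)]
    have := Real.exp_le_exp.2 hqL
    have h9 : (4.27 : ℝ) < 22 / 5 := by norm_num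
    linarith
  · have : 2 * Real.log (12 / 5) = Real.log ((12 / 5) ^ 2) := by
      rw [Real.log_pow]; norm_num
    rw [this, Real.lt_log_iff_exp_lt (by norm_num)]
    have := Real.exp_le_exp.2 hqL
    have h9 : (4.27 : ℝ) < (12 / 5) ^ 2 := by norm_num
    linarith

end KN
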