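import Pool.Agent.Helper89.KN.Spec

/-! Part OGS: area inequality for two extreme points in the half plane. -/

open MeasureTheory Set Filter Topology
open scoped ENNReal

noncomputable section

namespace KN

namespace OGS

/-- reflection in the horizontal line of height `t` -/
def rh (t : ℝ) (z : ℂ) : ℂ := ⟨z.re, 2 * t - z.im⟩

/-- reflection in the vertical line of abscissa `s` -/
def rv (s : ℝ) (z : ℂ) : ℂ := ⟨2 * s - z.re, z.im⟩

theorem mp_rh (t : ℝ) : MeasurePreserving (rh t) volume volume := by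
  have h : rh t = (fun z => z + (⟨0, 2 * t⟩ : ℂ)) ∘ (Complex.conjLIE) := by
    funext z
    apply Complex.ext
    · simp [rh]
    · simp [rh]
      ring
  rw [h]
  exact (measurePreserving_add_right volume _).comp (LinearIsometryEquiv.measurePreserving _)

theorem mp_rv (s : ℝ) : MeasurePreserving (rv s) volume volume := by
  have h : rv s = (fun z => z + (⟨2 * s, 0⟩ : ℂ)) ∘
      (Complex.conjLIE.trans (LinearIsometryEquiv.neg ℝ)) := by
    funext z
    apply Complex.ext
    · simp [rv]
      ring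
    · simp [rv]
  rw [h]
  exact (measurePreserving_add_right volume _).comp (LinearIsometryEquiv.measurePreserving _)

theorem dist_rh (v z : ℂ) : dist (rh v.im z) v = dist z v := by
  rw [Complex.dist_eq_re_im, Complex.dist_eq_re_im]
  congr 1
  simp only [rh]
  ring

theorem dist_rv (v z : ℂ) : dist (rv v.re z) v = dist z v := by
  rw [Complex.dist_eq_re_im, Complex.dist_eq_re_im]
  congr 1
  simp only [rv]
  ring

theorem vol_line (c : ℝ) : volume {z : ℂ | z.im = c} = 0 := by
  have hm : MeasurableSet {z : ℂ | z.im = c} :=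
    measurableSet_eq_fun Complex.measurable_im measurable_const
  have h1 : volume {z : ℂ | z.im = c} =
      volume (Complex.measurableEquivRealProd.symm ⁻¹' {z : ℂ | z.im = c}) :=
    (Complex.volume_preserving_equiv_real_prod.symm.measure_preimage hm.nullMeasurableSet).symm
  rw [h1]
  have h2 : Complex.measurableEquivRealProd.symm ⁻¹' {z : ℂ | z.im = c} = univ ×ˢ {c} := by
    ext p
    simp [Complex.measurableEquivRealProd_symm_apply]
  rw [h2, Measure.volume_eq_prod, Measure.prod_prod]
  simp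

theorem vol_ball (a : ℂ) {r : ℝ} (hr : 0 ≤ r) :
    volume (Metric.ball a r) = ENNReal.ofReal (Real.pi * r ^ 2) := by
  rw [Complex.volume_ball, mul_comm, ENNReal.ofReal_mul Real.pi_pos.le, ENNReal.ofReal_pow hr,
    ← NNReal.coe_real_pi, ENNReal.ofReal_coe_nnreal]

def UU (v : ℂ) (r : ℝ) : Set ℂ := {z : ℂ | 0 ≤ z.re ∧ v.im < z.im} ∩ Metric.ball v r
def DD (v : ℂ) (r : ℝ) : Set ℂ := {z : ℂ | 0 ≤ z.re ∧ z.im < v.im} ∩ Metric.ball v r

theorem meas_UU (v : ℂ) (r : ℝ) : MeasurableSet (UU v r) :=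
  ((measurableSet_le measurable_const Complex.measurable_re).inter
    (measurableSet_lt measurable_const Complex.measurable_im)).inter measurableSet_ball

theorem meas_DD (v : ℂ) (r : ℝ) : MeasurableSet (DD v r) :=
  ((measurableSet_le measurable_const Complex.measurable_re).inter
    (measurableSet_lt Complex.measurable_im measurable_const)).inter measurableSet_ball

theorem UU_eq_DD (v : ℂ) (r : ℝ) : volume (UU v r) = volume (DD v r) := by
  rw [← (mp_rh v.im).measure_preimage (meas_UU v r).nullMeasurableSet]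
  congr 1
  ext z
  simp only [UU, DD, mem_preimage, mem_inter_iff, mem_ofPred_eq, Metric.mem_ball, dist_rh]
  simp only [rh]
  constructor
  · rintro ⟨⟨h1, h2⟩, h3⟩
    exact ⟨⟨h1, by linarith⟩, h3⟩
  · rintro ⟨⟨h1, h2⟩, h3⟩
    exact ⟨⟨h1, by linarith⟩, h3⟩

theorem fin_UU (v : ℂ) (r : ℝ) : volume (UU v r) ≠ ⊤ :=
  ((measure_mono inter_subset_right).trans_lt measure_ball_lt_top).ne

theorem quarter (v : ℂ) {r : ℝ} (hr : 0 < r) (hv : 0 ≤ v.re) :
    ENNReal.ofReal (Real.pi * r ^ 2) ≤ 4 * volume (UU v r) := by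
  set H : Set ℂ := {z : ℂ | v.re ≤ z.re} ∩ Metric.ball v r with hH
  have hHm : MeasurableSet H :=
    (measurableSet_le measurable_const Complex.measurable_re).inter measurableSet_ball
  have h1 : Metric.ball v r ⊆ H ∪ rv v.re ⁻¹' H := by
    intro z hz
    by_cases h : v.re ≤ z.re
    · exact Or.inl ⟨h, hz⟩
    · right
      refine ⟨?_, ?_⟩
      · show v.re ≤ 2 * v.re - z.re
        push Not at h
        linarith
      · show rv v.re z ∈ Metric.ball v r
        rw [Metric.mem_ball, dist_rv]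
        exact hz
  have h2 : volume (Metric.ball v r) ≤ 2 * volume H := by
    refine (measure_mono h1).trans ((measure_union_le _ _).trans ?_)
    rw [(mp_rv v.re).measure_preimage hHm.nullMeasurableSet, two_mul]
  have h3 : H ⊆ (UU v r ∪ DD v r) ∪ {z : ℂ | z.im = v.im} := by
    rintro z ⟨hz1, hz2⟩
    have hz1' : v.re ≤ z.re := hz1
    rcases lt_trichotomy z.im v.im with h | h | h
    · exact Or.inl (Or.inr ⟨⟨hv.trans hz1', h⟩, hz2⟩)
    · exact Or.inr h
    · exact Or.inl (Or.inl ⟨⟨hv.trans hz1', h⟩, hz2⟩)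
  have h4 : volume H ≤ 2 * volume (UU v r) := by
    refine (measure_mono h3).trans ((measure_union_le _ _).trans ?_)
    rw [vol_line, add_zero]
    refine (measure_union_le _ _).trans ?_
    rw [← UU_eq_DD, two_mul]
  rw [← vol_ball v hr.le]
  calc volume (Metric.ball v r) ≤ 2 * volume H := h2
    _ ≤ 2 * (2 * volume (UU v r)) := by gcongr
    _ = 4 * volume (UU v r) := by rw [← mul_assoc]; norm_num

theorem half (v : ℂ) {r : ℝ} (hr : 0 < r) :
    2 * volume (UU v r) ≤ ENNReal.ofReal (Real.pi * r ^ 2) := by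
  have hd : Disjoint (UU v r) (DD v r) := by
    rw [Set.disjoint_left]
    rintro z ⟨⟨_, h1⟩, _⟩ ⟨⟨_, h2⟩, _⟩
    linarith
  have h1 : volume (UU v r) + volume (DD v r) = volume (UU v r ∪ DD v r) :=
    (measure_union hd (meas_DD v r)).symm
  rw [two_mul]
  nth_rewrite 2 [UU_eq_DD]
  rw [h1, ← vol_ball v hr.le]
  exact measure_mono (union_subset inter_subset_right inter_subset_right)

end OGS

open OGS in
theorem ogs_thm : S_OGS := by
  intro yb yt r vt vb v₀ hr hvt hvb ht hb hbt hv₀
  subst ht hb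
  have hW : ({z : ℂ | 0 ≤ z.re ∧ vt.im < z.im} ∩ Metric.ball vt r ∪
      {z : ℂ | 0 ≤ z.re ∧ z.im < vb.im} ∩ Metric.ball vb r) = UU vt r ∪ DD vb r := rfl
  have hd : Disjoint (UU vt r) (DD vb r) := by
    rw [Set.disjoint_left]
    rintro z ⟨⟨_, h1⟩, _⟩ ⟨⟨_, h2⟩, _⟩
    linarith
  have hvol : (volume (UU vt r ∪ DD vb r)).toReal =
      (volume (UU vt r)).toReal + (volume (UU vb r)).toReal := by
    rw [measure_union hd (meas_DD vb r), ← UU_eq_DD, ENNReal.toReal_add (fin_UU _ _) (fin_UU _ _)]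
  have hq : ∀ v : ℂ, 0 ≤ v.re → Real.pi * r ^ 2 ≤ 4 * (volume (UU v r)).toReal := by
    intro v hv
    have h1 := quarter v hr hv
    have h2 := ENNReal.toReal_mono (ENNReal.mul_ne_top (by norm_num) (fin_UU v r)) h1
    rw [ENNReal.toReal_ofReal (by positivity), ENNReal.toReal_mul] at h2
    simpa using h2
  have hh : ∀ v : ℂ, 2 * (volume (UU v r)).toReal ≤ Real.pi * r ^ 2 := by
    intro v
    have h1 := half v hr
    have h2 := ENNReal.toReal_mono ENNReal.ofReal_ne_top h1
    rw [ENNReal.toReal_ofReal (by positivity), ENNReal.toReal_mul] at h2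
    simpa using h2
  rw [hW, hvol]
  have q1 := hq vt hvt
  have q2 := hq vb hvb
  constructor
  · have hA : (volume ({z : ℂ | 0 ≤ z.re ∧ vb.im ≤ z.im ∧ z.im ≤ vt.im} ∩
        Metric.ball v₀ r)).toReal ≤ (volume (UU v₀ r)).toReal := by
      refine ENNReal.toReal_mono (fin_UU _ _) ?_
      rcases hv₀ with h | h
      · subst h
        have hs : ({z : ℂ | 0 ≤ z.re ∧ vb.im ≤ z.im ∧ z.im ≤ v₀.im} ∩ Metric.ball v₀ r) ⊆
            DD v₀ r ∪ {z : ℂ | z.im = v₀.im} := by
          rintro z ⟨⟨h1, h2, h3⟩, h4⟩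
          rcases h3.eq_or_lt with h5 | h5
          · exact Or.inr h5
          · exact Or.inl ⟨⟨h1, h5⟩, h4⟩
        refine (measure_mono hs).trans ((measure_union_le _ _).trans ?_)
        rw [vol_line, add_zero, UU_eq_DD]
      · subst h
        have hs : ({z : ℂ | 0 ≤ z.re ∧ v₀.im ≤ z.im ∧ z.im ≤ vt.im} ∩ Metric.ball v₀ r) ⊆
            UU v₀ r ∪ {z : ℂ | z.im = v₀.im} := by
          rintro z ⟨⟨h1, h2, h3⟩, h4⟩
          rcases h2.eq_or_lt with h5 | h5
          · exact Or.inr h5.symm
          · exact Or.inl ⟨⟨h1, h5⟩, h4⟩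
        refine (measure_mono hs).trans ((measure_union_le _ _).trans ?_)
        rw [vol_line, add_zero]
    rcases hv₀ with h | h
    · subst h
      have := hh v₀
      linarith
    · subst h
      have := hh v₀
      linarith
  · linarith

end KN
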